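import Pool.Agent.W993.MC.Stm

/-!
Project MC (helper993): bound of the truncated nested sums by powers of the harmonic numbers (S_BD).
-/

set_option autoImplicit false

namespace Pool.Agent.W150.MC

open Pool.Agent.W993.MC

lemma hm_nonneg (M : ℕ) : 0 ≤ hm M := by
  unfold hm
  exact Finset.sum_nonneg fun l _ => by positivity

lemma hm_mono {l M : ℕ} (h : l ≤ M) : hm l ≤ hm M := by
  unfold hm
  exact Finset.sum_le_sum_of_subset_of_nonneg (Finset.range_mono h) fun i _ _ => by positivity

theorem bd : S_BD := by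
  intro L
  induction L with
  | nil =>
    intro _ M
    simp [S]
  | cons p L ih =>
    obtain ⟨a, z⟩ := p
    intro h M
    have ih' := ih (fun q hq => h q (List.mem_cons_of_mem _ hq))
    obtain ⟨ha, hz⟩ := h (a, z) List.mem_cons_self
    simp only at ha hz
    rw [List.length_cons, pow_succ']
    unfold S
    calc ‖∑ l ∈ Finset.range M, z ^ (l + 1) / ((l : ℂ) + 1) ^ a * S L l‖
        ≤ ∑ l ∈ Finset.range M, ‖z ^ (l + 1) / ((l : ℂ) + 1) ^ a * S L l‖ := norm_sum_le _ _
      _ ≤ ∑ l ∈ Finset.range M, 1 / ((l : ℝ) + 1) * hm M ^ L.length := by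
          apply Finset.sum_le_sum
          intro l hl
          rw [norm_mul, norm_div, norm_pow, norm_pow]
          have h1 : ‖((l : ℂ) + 1)‖ = (l : ℝ) + 1 := by
            have : ((l : ℂ) + 1) = ((l + 1 : ℕ) : ℂ) := by push_cast; ring
            rw [this, Complex.norm_natCast]
            push_cast
            ring
          rw [h1]
          have h2 : ‖z‖ ^ (l + 1) ≤ 1 := pow_le_one₀ (norm_nonneg _) hz
          have h3 : (l : ℝ) + 1 ≤ ((l : ℝ) + 1) ^ a := by
            have h4 : (1 : ℝ) ≤ (l : ℝ) + 1 := by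
              have : (0 : ℝ) ≤ (l : ℝ) := Nat.cast_nonneg _
              linarith
            calc (l : ℝ) + 1 = ((l : ℝ) + 1) ^ 1 := (pow_one _).symm
              _ ≤ ((l : ℝ) + 1) ^ a := pow_le_pow_right₀ h4 ha
          have h5 : ‖S L l‖ ≤ hm M ^ L.length :=
            (ih' l).trans (pow_le_pow_left₀ (hm_nonneg l)
              (hm_mono (Finset.mem_range.1 hl).le) _)
          have h6 : ‖z‖ ^ (l + 1) / ((l : ℝ) + 1) ^ a ≤ 1 / ((l : ℝ) + 1) :=
            div_le_div₀ zero_le_one h2 (by positivity) h3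
          exact mul_le_mul h6 h5 (norm_nonneg _) (by positivity)
      _ = hm M * hm M ^ L.length := by
          rw [← Finset.sum_mul]
          rfl

end Pool.Agent.W150.MC
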